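import Mathlib
import Pool.Agent.Work.MP_15f3fd_al.Defs
import Pool.Agent.Work.MP_15f3fd_al.Proof

/-!
# The Fitting ideal of the Koszul module of a graph (MP_15f3fd_al, Q1)

For every field `k` of characteristic zero, every `n ≥ 3` and every simple graph `Γ` on `n` vertices
with at least `n - 2` non-edges, the Fitting ideal of the Koszul module of `Γ` equals
`I_{T(Γ)} * m ^ (|non-edges| - n + 2)`.  (For disconnected `Γ` both sides are zero.)

Idea of the proof: with `y_v = x_v ^ 2`, the Cauchy-Binet formula and a Sylvester type identity show
that the sum of the squares of the maximal minors is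
`(y_1 + ... + y_n) ^ (|non-edges| - n + 2)` times the sum over spanning trees `T` of
`∏ y_v ^ (deg_T v - 1)`, up to positive factors of each term. All terms have positive coefficients,
every minor is a scalar times a monomial, and so the monomials on the two sides agree.
-/

namespace Pool.Agent.Results.MP_15f3fd_al.FittingKoszul

open Pool.Agent.Work.MP_15f3fd_al

theorem result (k : Type*) [Field k] [CharZero k] (n : ℕ) (hn : 3 ≤ n)
    (Γ : SimpleGraph (Fin n)) [DecidableRel Γ.Adj]
    (hE : n ≤ Fintype.card (NonEdge Γ) + 2) :
    fittIdeal k Γ = treeIdeal k Γ * maxIdeal k n ^ (Fintype.card (NonEdge Γ) + 2 - n) := by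
  obtain ⟨N, rfl⟩ : ∃ N, n = N + 1 := ⟨n - 1, by omega⟩
  exact main_theorem k (by omega) Γ hE

end Pool.Agent.Results.MP_15f3fd_al.FittingKoszul
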